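import Pool.Agent.TH607.D4.Word

set_option autoImplicit false

/-! If a word survives in a finite quotient, then `z` survives in a finite quotient of the group of
the frame bundle. -/

namespace Pool.Agent.TH744.SM4

open Pool.Agent.TH607.D4

/-- The word `w` survives in a finite quotient of `⟨x | R⟩`. -/
def Survives {m : ℕ} (R : Finset (FreeGroup (Fin m))) (w : List (Fin m × Bool)) : Prop :=
  ∃ (Q : Type) (_ : Group Q) (_ : Finite Q) (φ : FreeGroup (Fin m) →* Q),
    (∀ r ∈ R, φ r = 1) ∧ φ (FreeGroup.mk w) ≠ 1

/-- The word `w` is trivial in `⟨x | R⟩`. -/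
def Trivial {m : ℕ} (R : Finset (FreeGroup (Fin m))) (w : List (Fin m × Bool)) : Prop :=
  FreeGroup.mk w ∈ Subgroup.normalClosure (R : Set (FreeGroup (Fin m)))

/-- `z` survives in a finite quotient of the group of the frame bundle. -/
def ZSurvives (p : Pres) : Prop :=
  ∃ (P : Type) (_ : Group P) (_ : Finite P) (F : FrameGroup p →* P), F (zz p) ≠ 1

theorem zsurvives {m : ℕ} (R : Finset (FreeGroup (Fin m))) (w : List (Fin m × Bool))
    (h : Survives R w) : ZSurvives (pres m (wordsOf R) (nat w)) := by
  classical
  obtain ⟨G, hG, hfin, ρ, hρR, hw⟩ := h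
  set p := pres m (wordsOf R) (nat w) with hp
  let f : Option ℕ → Equiv.Perm (X G)
    | none => pZ G
    | some i => if hi : i < m then pL G (ρ (FreeGroup.of ⟨i, hi⟩)) else
        if i = m then pS G else if i = m + 1 then pT G else 1
  have f1 : ∀ i : Fin m, f (some i.val) = pL G (ρ (FreeGroup.of i)) := by
    intro i
    simp [f, i.2]
  have fm : f (some m) = pS G := by simp [f]
  have fm1 : f (some (m + 1)) = pT G := by simp [f]
  have hf : ∀ v : FreeGroup (Fin m),
      FreeGroup.lift f (FreeGroup.map (fun i : Fin m => some i.val) v) = pL G (ρ v) := by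
    intro v
    have : (FreeGroup.lift f).comp (FreeGroup.map (fun i : Fin m => some i.val)) =
        (pL G).comp ρ := by
      apply FreeGroup.ext_hom
      intro i
      simp [f1]
    exact DFunLike.congr_fun this v
  have hrel : ∀ x ∈ rels p, FreeGroup.lift f x = 1 := by
    rintro x (rfl | ⟨i, rfl⟩ | ⟨i, hi, rfl⟩ | ⟨r, hr, rfl⟩)
    · rw [map_pow, FreeGroup.lift_apply_of, pow_two]
      exact pZ_sq G
    · simp only [map_mul, map_inv, FreeGroup.lift_apply_of]
      rw [mul_inv_eq_one, mul_inv_eq_iff_eq_mul]
      change pZ G * f (some i) = f (some i) * pZ G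
      simp only [f]
      split_ifs
      · exact pZ_L G _
      · exact pZ_S G
      · exact pZ_T G
      · simp
    · rw [FreeGroup.lift_apply_of]
      have hi' : m + 2 ≤ i := hi
      simp only [f]
      rw [dif_neg (by omega), if_neg (by omega), if_neg (by omega)]
    · rw [hp, pres] at hr
      rcases List.mem_append.mp hr with hr | hr
      · obtain ⟨r', hr', rfl⟩ := List.mem_map.mp hr
        obtain ⟨r'', hr'', rfl⟩ := List.mem_map.mp hr'
        simp only [Bool.false_eq_true, if_false, mul_one]
        rw [map_nat, hf, FreeGroup.mk_toWord]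
        have : ρ r'' = 1 := hρR r'' (Finset.mem_toList.mp hr'')
        rw [this, map_one]
      · rw [List.mem_singleton] at hr
        subst hr
        simp only [if_true]
        rw [mk_comm, mk_comm, map_mul, map_cm, map_cm, map_cm, map_cm, map_nat, hf]
        have a1 : FreeGroup.lift f (FreeGroup.map some (FreeGroup.mk [(m, true)])) = pS G := by
          change FreeGroup.lift f (FreeGroup.map some (FreeGroup.of m)) = _
          rw [FreeGroup.map.of, FreeGroup.lift_apply_of, fm]
        have a2 : FreeGroup.lift f (FreeGroup.map some (FreeGroup.mk [(m + 1, true)])) = pT G := by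
          change FreeGroup.lift f (FreeGroup.map some (FreeGroup.of (m + 1))) = _
          rw [FreeGroup.map.of, FreeGroup.lift_apply_of, fm1]
        rw [a1, a2, key G hw, FreeGroup.lift_apply_of]
        exact pZ_sq G
  let F : FrameGroup p →* Equiv.Perm (X G) := PresentedGroup.toGroup (f := f) hrel
  have : Finite (X G) := inferInstance
  have : Finite (Equiv.Perm (X G)) := inferInstance
  refine ⟨Equiv.Perm (X G), inferInstance, inferInstance, F, ?_⟩
  have h2 : F (zz p) = pZ G := PresentedGroup.toGroup.of (f := f) hrel
  rw [h2]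
  exact pZ_ne G

end Pool.Agent.TH744.SM4
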