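import Pool.Agent.TH744.SM4.Fin

set_option autoImplicit false

/-!
# Smoothability of closed topological 4-manifolds is undecidable

The classical facts of 4-manifold topology are the fields of the structure `TopManifolds`; they are
assumed, not proved.
-/

namespace Pool.Agent.TH744.SM4

open Pool.Agent.TH607.D4

/-- The closed connected oriented topological 4-manifolds, with the classical facts that are
used. -/
structure TopManifolds where
  /-- Closed connected oriented topological 4-manifolds up to orientation preserving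
  homeomorphism, under connected sum. -/
  M : Type
  [instM : CommMonoid M]
  /-- `X` is smoothable: homeomorphic to a smooth manifold. -/
  Sm : M → Prop
  /-- Connected sums of smooth manifolds are smooth. -/
  sm_mul : ∀ X Y, Sm X → Sm Y → Sm (X * Y)
  /-- The Kirby-Siebenmann invariant. -/
  ks : M → ZMod 2
  ks_mul : ∀ X Y, ks (X * Y) = ks X + ks Y
  ks_sm : ∀ X, Sm X → ks X = 0
  /-- The second Betti number. -/
  b2 : M → ℕ
  b2_mul : ∀ X Y, b2 (X * Y) = b2 X + b2 Y
  /-- The signature. -/
  sign : M → ℤ
  sign_mul : ∀ X Y, sign (X * Y) = sign X + sign Y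
  /-- `X` is spin. -/
  Spin : M → Prop
  spin_one : Spin 1
  spin_mul : ∀ X Y, Spin X → Spin Y → Spin (X * Y)
  /-- `X` is simply connected. -/
  SC : M → Prop
  sc_one : SC 1
  sc_mul : ∀ X Y, SC X → SC Y → SC (X * Y)
  /-- `Cover d Y X`: `Y` is a connected covering of `X` with `d` sheets. -/
  Cover : ℕ → M → M → Prop
  /-- A covering of a smooth manifold is smooth. -/
  cover_sm : ∀ d Y X, Cover d Y X → Sm X → Sm Y
  /-- If `A` is simply connected and `Y` is a `d`-sheeted covering of `X`, then `Y # d A` is a
  `d`-sheeted covering of `X # A`. -/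
  cover_mul : ∀ d Y X A, Cover d Y X → SC A → Cover d (Y * A ^ d) (X * A)
  /-- `S² × S²`. -/
  S : M
  sm_S : Sm S
  sc_S : SC S
  spin_S : Spin S
  b2_S : b2 S = 2
  sign_S : sign S = 0
  /-- `ℂP²`. -/
  C : M
  sm_C : Sm C
  /-- `-ℂP²`. -/
  D : M
  sm_D : Sm D
  /-- The closed simply connected topological 4-manifold with intersection form `E₈`
  (Freedman). -/
  E : M
  sc_E : SC E
  spin_E : Spin E
  b2_E : b2 E = 8
  sign_E : sign E = 8
  /-- Freedman: closed simply connected 4-manifolds with the same odd form and the same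
  Kirby-Siebenmann invariant are homeomorphic. -/
  freedman : ∀ k : ℕ, C * D * E ^ (2 * k) = C ^ (16 * k + 1) * D
  /-- Furuta's 10/8-theorem: `b₂ ≥ (10/8)|σ| + 2` for closed smooth spin 4-manifolds with
  `σ ≠ 0`. -/
  furuta : ∀ X, Sm X → Spin X → sign X ≠ 0 → 5 * |sign X| + 8 ≤ 4 * (b2 X : ℤ)
  /-- The boundary of the 5-dimensional oriented handlebody with one 0-handle, a 1-handle for each
  generator and a 2-handle for each relator `r`, framed so that `w₂` is given by the labels: the
  fundamental group of its frame bundle is `FrameGroup p`, with `z` the image of `π₁(SO(4))`. -/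
  Z : Pres → M
  sm_Z : ∀ p, Sm (Z p)
  /-- `z = 1` if and only if the universal cover of `Z p` is not spin; then (Wall)
  `Z p # (S² × S²) = Z p # ℂP² # (-ℂP²)`. -/
  wall : ∀ p, zz p = 1 → Z p * S = Z p * (C * D)
  /-- If `z` survives in a finite quotient then a finite covering of `Z p` is spin (the covering
  with frame group `F⁻¹⟨F z⟩`). -/
  cover_Z : ∀ p, ZSurvives p → ∃ d Y, 0 < d ∧ Cover d Y (Z p) ∧ Spin Y
  /-- A `d`-sheeted covering of `Z p` bounds a handlebody with `d` times the number of relators
  2-handles. -/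
  bound_Z : ∀ p d Y, Cover d Y (Z p) → b2 Y ≤ 2 * (d * p.2.length) ∧ sign Y = 0
  /-- `n` is the code of a finite presentation (Freedman-Zuddas) of `X`. -/
  Code : ℕ → M → Prop
  /-- From `p` one can compute a presentation of `Z p # Y`, for any fixed `Y`. -/
  code_comp : ∀ Y : M, ∃ f : Pres → ℕ, Computable f ∧ ∀ p, Code (f p) (Z p * Y)

attribute [instance] TopManifolds.instM

namespace TopManifolds

variable (T : TopManifolds)

/-- `A` halts on every presentation of a closed connected oriented topological 4-manifold with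
vanishing Kirby-Siebenmann invariant and decides whether it is smoothable. -/
def Decides (A : ℕ →. Bool) : Prop :=
  ∀ n X, T.Code n X → T.ks X = 0 → ∃ b ∈ A n, (b = true ↔ T.Sm X)

theorem b2_one : T.b2 1 = 0 := by
  have := T.b2_mul 1 1
  rw [mul_one] at this
  omega

theorem sign_one : T.sign 1 = 0 := by
  have := T.sign_mul 1 1
  rw [mul_one] at this
  omega

theorem ks_one : T.ks 1 = 0 := by
  have := T.ks_mul 1 1
  rw [mul_one] at this
  simpa using this.symm

theorem b2_pow (X : T.M) (n : ℕ) : T.b2 (X ^ n) = n * T.b2 X := by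
  induction n with
  | zero => simp [T.b2_one]
  | succ n ih => rw [pow_succ, T.b2_mul, ih]; ring

theorem sign_pow (X : T.M) (n : ℕ) : T.sign (X ^ n) = n * T.sign X := by
  induction n with
  | zero => simp [T.sign_one]
  | succ n ih => rw [pow_succ, T.sign_mul, ih]; push_cast; ring

theorem ks_pow (X : T.M) (n : ℕ) : T.ks (X ^ n) = n * T.ks X := by
  induction n with
  | zero => simp [T.ks_one]
  | succ n ih => rw [pow_succ, T.ks_mul, ih]; push_cast; ring

theorem spin_pow (X : T.M) (n : ℕ) (h : T.Spin X) : T.Spin (X ^ n) := by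
  induction n with
  | zero => simpa using T.spin_one
  | succ n ih => rw [pow_succ]; exact T.spin_mul _ _ ih h

theorem sc_pow (X : T.M) (n : ℕ) (h : T.SC X) : T.SC (X ^ n) := by
  induction n with
  | zero => simpa using T.sc_one
  | succ n ih => rw [pow_succ]; exact T.sc_mul _ _ ih h

/-- `C ^ n * D` is smooth. -/
theorem sm_CD (n : ℕ) : T.Sm (T.C ^ n * T.D) := by
  induction n with
  | zero => simpa using T.sm_D
  | succ n ih =>
    rw [pow_succ, mul_comm (T.C ^ n) T.C, mul_assoc]
    exact T.sm_mul _ _ T.sm_C ih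

/-- `(S² × S²) # 2k E₈`. -/
def Y0 (k : ℕ) : T.M := T.S * T.E ^ (2 * k)

/-- If `z = 1` then `Z p # (S² × S²) # 2k E₈` is smoothable. -/
theorem smooth_of (p : Pres) (k : ℕ) (h : zz p = 1) : T.Sm (T.Z p * T.Y0 k) := by
  have e : T.Z p * T.Y0 k = T.Z p * (T.C ^ (16 * k + 1) * T.D) := by
    unfold Y0
    rw [← mul_assoc, T.wall p h, mul_assoc, T.freedman]
  rw [e]
  exact T.sm_mul _ _ (T.sm_Z p) (T.sm_CD _)

/-- If `z` survives in a finite quotient then `Z p # (S² × S²) # 2k E₈` is not smoothable as soon
as `2k` exceeds the number of relators. -/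
theorem not_smooth_of (p : Pres) (k : ℕ) (h : ZSurvives p) (hk : p.2.length + 1 ≤ 2 * k) :
    ¬ T.Sm (T.Z p * T.Y0 k) := by
  intro hs
  obtain ⟨d, Y, hd, hY, hspin⟩ := T.cover_Z p h
  obtain ⟨hb, hσ⟩ := T.bound_Z p d Y hY
  have hsc : T.SC (T.Y0 k) := T.sc_mul _ _ T.sc_S (T.sc_pow _ _ T.sc_E)
  have hc := T.cover_mul d Y (T.Z p) (T.Y0 k) hY hsc
  have hsm := T.cover_sm _ _ _ hc hs
  have hsp : T.Spin (Y * T.Y0 k ^ d) :=
    T.spin_mul _ _ hspin (T.spin_pow _ _ (T.spin_mul _ _ T.spin_S (T.spin_pow _ _ T.spin_E)))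
  have e1 : T.sign (Y * T.Y0 k ^ d) = 16 * k * d := by
    rw [T.sign_mul, T.sign_pow, hσ]
    unfold Y0
    rw [T.sign_mul, T.sign_pow, T.sign_S, T.sign_E]
    push_cast
    ring
  have e2 : T.b2 (Y * T.Y0 k ^ d) = T.b2 Y + d * (2 + 16 * k) := by
    rw [T.b2_mul, T.b2_pow]
    unfold Y0
    rw [T.b2_mul, T.b2_pow, T.b2_S, T.b2_E]
    ring
  have hk0 : 0 < k := by omega
  have hpos : (0 : ℤ) < 16 * k * d := by positivity
  have hF := T.furuta _ hsm hsp (by rw [e1]; exact hpos.ne')
  rw [e1, e2, abs_of_pos hpos] at hF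
  have hF' : 5 * (16 * k * d) + 8 ≤ 4 * (T.b2 Y + d * (2 + 16 * k)) := by exact_mod_cast hF
  have h1 : d * (p.2.length + 1) ≤ d * (2 * k) := Nat.mul_le_mul_left d hk
  nlinarith

theorem ks_X (p : Pres) (k : ℕ) : T.ks (T.Z p * T.Y0 k) = 0 := by
  unfold Y0
  rw [T.ks_mul, T.ks_mul, T.ks_pow, T.ks_sm _ (T.sm_Z p), T.ks_sm _ T.sm_S]
  have : ((2 * k : ℕ) : ZMod 2) = 0 := by
    push_cast
    have h2 : (2 : ZMod 2) = 0 := by decide
    rw [h2, zero_mul]
  rw [this]
  simp

end TopManifolds

/-! ### Computability -/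

theorem primrec_invRev : Primrec (fun w : List (ℕ × Bool) => FreeGroup.invRev w) := by
  unfold FreeGroup.invRev
  refine Primrec.list_reverse.comp (Primrec.list_map Primrec.id ?_)
  exact (Primrec.pair (Primrec.fst.comp Primrec.snd)
    (Primrec.not.comp (Primrec.snd.comp Primrec.snd))).to₂

theorem primrec_comm (b : List (ℕ × Bool)) :
    Primrec (fun w : List (ℕ × Bool) => Pool.Agent.TH607.D4.comm w b) := by
  unfold Pool.Agent.TH607.D4.comm
  exact Primrec.list_append.comp Primrec.id (Primrec.list_append.comp (Primrec.const _)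
    (Primrec.list_append.comp primrec_invRev (Primrec.const _)))

theorem primrec_nat (m : ℕ) : Primrec (fun w : List (Fin m × Bool) => nat w) := by
  unfold nat
  refine Primrec.list_map Primrec.id ?_
  exact (Primrec.pair (Primrec.fin_val.comp (Primrec.fst.comp Primrec.snd))
    (Primrec.snd.comp Primrec.snd)).to₂

theorem primrec_pres (m : ℕ) (R : List (List (ℕ × Bool))) :
    Primrec (fun w : List (ℕ × Bool) => pres m R w) := by
  unfold pres
  refine Primrec.pair (Primrec.const _) (Primrec.list_append.comp (Primrec.const _) ?_)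
  refine Primrec.list_cons.comp (Primrec.pair ?_ (Primrec.const _)) (Primrec.const _)
  exact (primrec_comm _).comp (primrec_comm _)

/-- An algorithm separates the words which are trivial in `⟨x | R⟩` from the words which survive in
a finite quotient of `⟨x | R⟩`. -/
def Separable {m : ℕ} (R : Finset (FreeGroup (Fin m))) : Prop :=
  ∃ f : List (Fin m × Bool) → Bool, Computable f ∧ (∀ w, Trivial R w → f w = true) ∧
    ∀ w, Survives R w → f w = false

/-- Slobodskoi's theorem: for some finitely presented group no algorithm separates the words which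
are trivial from the words which survive in a finite quotient. -/
def Slobodskoi : Prop := ∃ (m : ℕ) (R : Finset (FreeGroup (Fin m))), ¬ Separable R

theorem length_pres {m : ℕ} (R : Finset (FreeGroup (Fin m))) (w : List (ℕ × Bool)) :
    (pres m (wordsOf R) w).2.length = R.card + 1 := by
  simp [pres, wordsOf]

/-- An algorithm for smoothability separates. -/
theorem separable_of (T : TopManifolds) (A : ℕ →. Bool) (hA : Partrec A) (H : T.Decides A)
    {m : ℕ} (R : Finset (FreeGroup (Fin m))) : Separable R := by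
  classical
  set k := R.card + 1 with hk
  obtain ⟨f0, hf0, hc⟩ := T.code_comp (T.Y0 k)
  let P : List (Fin m × Bool) → Pres := fun w => pres m (wordsOf R) (nat w)
  have hP : Computable P := ((primrec_pres m (wordsOf R)).comp (primrec_nat m)).to_comp
  have hg : Partrec (fun w => A (f0 (P w))) := hA.comp (hf0.comp hP)
  let f : List (Fin m × Bool) → Bool := fun w => decide (T.Sm (T.Z (P w) * T.Y0 k))
  have hf : Computable f := by
    refine Partrec.of_eq hg ?_
    intro w
    obtain ⟨b, hb, hbi⟩ := H _ _ (hc (P w)) (T.ks_X (P w) k)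
    change A (f0 (P w)) = Part.some (f w)
    rw [Part.eq_some_iff]
    have : f w = b := by
      by_cases hs : T.Sm (T.Z (P w) * T.Y0 k)
      · rw [hbi.mpr hs]
        exact decide_eq_true hs
      · have hb0 : b = false := by
          rw [← Bool.not_eq_true]
          intro h'
          exact hs (hbi.mp h')
        rw [hb0]
        exact decide_eq_false hs
    rw [this]
    exact hb
  refine ⟨f, hf, ?_, ?_⟩
  · intro w hw
    exact decide_eq_true (T.smooth_of (P w) k ((zz_iff R w).mpr hw))
  · intro w hw
    refine decide_eq_false (T.not_smooth_of (P w) k (zsurvives R w hw) ?_)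
    change (pres m (wordsOf R) (nat w)).2.length + 1 ≤ 2 * k
    rw [length_pres]
    omega

end Pool.Agent.TH744.SM4
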